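import Pool.Agent.NSN83.Proof

/-!
# Viscosity solutions of semilinear PDEs under growth bounds only: non-existence with noise

The equation `∂_t u + L u + g(t, x, u, σ* ∇u) = 0`, `u(T, ·) = h`, on `[0, T] × ℝⁿ`, for every drift
`b` and diffusion matrix `σ` that leave a wall in a box invariant (for `n = 1`: a point). The
definitions are in the file `Pool/Agent/NSN83/Defs.lean`, the proof is in
`Pool/Agent/NSN83/Proof.lean`.
-/

set_option autoImplicit false

namespace Pool.Agent.Results.MP_2d773b_an.NoSolutionWithNoise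

open Set Filter Topology Pool.Agent.NSN83

/-- **Non-existence with noise.** Let `T > 0`, `n, d ≥ 1`, `1 < α ≤ 2`, `1 ≤ p < α*`, and let `b, σ`
satisfy the continuity hypotheses and (A1). Suppose that for some `s < T` and some `z` the pair `b, σ`
leaves the wall `x₁ = z₁` invariant at the times in `[s, T]` in the sense of `Invariant` (for `n = 1` this
says only that `b(t, z) = 0` and `σ(t, z) = 0`). Then the data with `g = 2 sgn(y) min(√|y|, 1)` and
`h(x) = sin (x₁ - z₁)` satisfy all the hypotheses of Q1, but (E) has no continuous viscosity solution,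
not even on `[t₁, T] × ℝⁿ` for any `t₁ < T`. An example is `b = 0` with the matrix `σ` with the diagonal
entries `sin x_i`, which has the maximal rank `min n d` wherever no `x_i` lies in `πℤ`. -/
theorem result (n d : ℕ) (hn : 0 < n) (_hd : 0 < d) (T : ℝ) (hT : 0 < T) (α p : ℝ) (hα : 1 < α)
    (hα' : α ≤ 2) (hp : 1 ≤ p) (hp' : p < α / (α - 1)) :
    (∀ (K s : ℝ) (z : Fin n → ℝ) (b : ℝ → E n → E n) (σ : ℝ → E n → Matrix (Fin n) (Fin d) ℝ),
      0 < K → 0 ≤ s → s < T →
      ContinuousOn (fun q : ℝ × E n => b q.1 q.2) (Icc 0 T ×ˢ univ) →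
      ContinuousOn (fun q : ℝ × E n => σ q.1 q.2) (Icc 0 T ×ˢ univ) →
      (∀ t ∈ Icc 0 T, ∀ x x' : E n, ‖b t 0‖ + frob (σ t x) ≤ K ∧
        ‖b t x - b t x'‖ + frob (σ t x - σ t x') ≤ K * ‖x - x'‖) →
      Invariant s T z b σ →
      (data n d hn T z b σ).Hyp K 3 α p ∧
        ∀ t₁ < T, ¬ ∃ u : ℝ × E n → ℝ, (data n d hn T z b σ).IsViscositySolution t₁ u) ∧
    ((data n d hn T 0 (fun _ _ => 0) fun _ => sinMatrix n d).Hyp n 3 α p ∧
      (∀ x : E n, (∀ i, Real.sin (x i) ≠ 0) → (sinMatrix n d x).rank = min n d) ∧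
      ∀ t₁ < T, ¬ ∃ u : ℝ × E n → ℝ,
        (data n d hn T 0 (fun _ _ => 0) fun _ => sinMatrix n d).IsViscositySolution t₁ u) := by
  have main : ∀ (K s : ℝ) (z : Fin n → ℝ) (b : ℝ → E n → E n)
      (σ : ℝ → E n → Matrix (Fin n) (Fin d) ℝ),
      0 < K → 0 ≤ s → s < T →
      ContinuousOn (fun q : ℝ × E n => b q.1 q.2) (Icc 0 T ×ˢ univ) →
      ContinuousOn (fun q : ℝ × E n => σ q.1 q.2) (Icc 0 T ×ˢ univ) →
      (∀ t ∈ Icc 0 T, ∀ x x' : E n, ‖b t 0‖ + frob (σ t x) ≤ K ∧
        ‖b t x - b t x'‖ + frob (σ t x - σ t x') ≤ K * ‖x - x'‖) →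
      Invariant s T z b σ →
      (data n d hn T z b σ).Hyp K 3 α p ∧
        ∀ t₁ < T, ¬ ∃ u : ℝ × E n → ℝ, (data n d hn T z b σ).IsViscositySolution t₁ u := by
    intro K s z b σ hK hs hsT hb hσ hA1 hinv
    refine ⟨data_hyp n d hn T hT z α p hα hα' hp hp' hK b σ hb hσ hA1, ?_⟩
    rintro t₁ ht₁ ⟨u, hu⟩
    exact no_solution n d hn T hK hs hsT z b σ (fun t ht x x' => (hA1 t ht x x').2) hinv ht₁ u hu
  refine ⟨main, ?_⟩
  have h1 := main n 0 0 (fun _ _ => 0) (fun _ => sinMatrix n d) (by exact_mod_cast hn) (le_refl _) hT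
    continuousOn_const (((sinMatrix_continuous n d).comp continuous_snd).continuousOn)
    (fun t _ x x' => sinMatrix_A1 n d hn x x')
    (by
      intro t _ x _ i hi
      refine ⟨rfl, fun j => ?_⟩
      have h2 : Real.sin (x i) = 0 := by simpa using hi
      change sinMatrix n d x i j = 0
      unfold sinMatrix
      rw [Matrix.of_apply, h2]
      simp)
  exact ⟨h1.1, fun x hx => sinMatrix_rank n d hx, h1.2⟩

end Pool.Agent.Results.MP_2d773b_an.NoSolutionWithNoise
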