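import Mathlib
import Pool.Agent.Lib_helper39.Visc.Main

/-!
# Viscosity solutions of semilinear PDEs under growth bounds only: a negative answer

The equation `∂_t u + L u + g(t, x, u, σ* ∇u) = 0`, `u(T, ·) = h`, on `[0, T] × ℝⁿ`, with
`g = 2 sgn(y) min(√|y|, 1)`, `h(x) = sin x₁` and any coefficients `b`, `σ` that do not move the
first coordinate.
-/

set_option autoImplicit false

namespace Pool.Agent.Results.MP_2d773b_an.NoViscositySolution

open Set Filter Topology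
open Pool.Agent.Lib_helper39.Visc

/-- Let `b`, `σ` be any coefficients which are continuous on `[0, T] × ℝⁿ`, satisfy (A1) and do not
move the first coordinate: `b₁ = 0` and the first row of `σ` is `0`. Then `b`, `σ`,
`g = 2 sgn(y) min(√|y|, 1)`, `h(x) = sin x₁` satisfy the continuity hypotheses, (A1), (G1) and (G2),
and (E) has no continuous viscosity solution, not even on `[t₁, T] × ℝⁿ` for any `t₁ < T`. -/
theorem result (n d : ℕ) (hn : 0 < n) (_hd : 0 < d) (T : ℝ) (hT : 0 < T) (α p : ℝ) (hα : 1 < α)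
    (hα' : α ≤ 2) (hp : 1 ≤ p) (hp' : p < α / (α - 1)) (K : ℝ) (hK : 0 < K)
    (b : ℝ → E n → E n) (σ : ℝ → E n → Matrix (Fin n) (Fin d) ℝ)
    (hb : ContinuousOn (fun q : ℝ × E n => b q.1 q.2) (Icc 0 T ×ˢ univ))
    (hσ : ContinuousOn (fun q : ℝ × E n => σ q.1 q.2) (Icc 0 T ×ˢ univ))
    (A1 : ∀ t ∈ Icc 0 T, ∀ x x' : E n, ‖b t 0‖ + frob (σ t x) ≤ K ∧
      ‖b t x - b t x'‖ + frob (σ t x - σ t x') ≤ K * ‖x - x'‖)
    (hb₁ : ∀ t ∈ Icc 0 T, ∀ x : E n, b t x ⟨0, hn⟩ = 0)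
    (hσ₁ : ∀ t ∈ Icc 0 T, ∀ (x : E n) (j : Fin d), σ t x ⟨0, hn⟩ j = 0) :
    (cex n d hn T b σ).Hyp K 3 α p ∧
      ∀ t₁ < T, ¬ ∃ u : ℝ × E n → ℝ, (cex n d hn T b σ).IsViscositySolution t₁ u := by
  have frob_nonneg : ∀ A : Matrix (Fin n) (Fin d) ℝ, 0 ≤ frob A := fun A => Real.sqrt_nonneg _
  refine ⟨⟨hT, hb, hσ, ?_, ?_, hK, by norm_num, hα, hα', hp, hp', A1, ?_, ?_⟩, ?_⟩
  · apply Continuous.continuousOn
    exact continuous_G.comp (by fun_prop)
  · change Continuous fun x : E n => Real.sin (x ⟨0, hn⟩)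
    fun_prop
  · intro t _ x y z
    change Real.sign y * G y ≤ 3 * (1 + ‖x‖ ^ p + |y| + ‖z‖ ^ α)
    have e1 : Real.sign y * G y ≤ |G y| := by
      rcases Real.sign_apply_eq y with h | h | h
      · rw [h]
        linarith [neg_abs_le (G y)]
      · rw [h, zero_mul]
        exact abs_nonneg _
      · rw [h, one_mul]
        exact le_abs_self _
    have e2 := abs_G_le y
    have e3 : 0 ≤ ‖x‖ ^ p := by positivity
    have e4 : 0 ≤ |y| := abs_nonneg _
    have e5 : 0 ≤ ‖z‖ ^ α := by positivity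
    linarith
  · intro t _ x y z
    change |G y| + |Real.sin (x ⟨0, hn⟩)| ≤ 3 * (1 + ‖x‖ ^ p +
      Real.exp (3 * |y| ^ (2 / (α / (α - 1)))) + ‖z‖ ^ 2)
    have e1 := Real.abs_sin_le_one (x ⟨0, hn⟩)
    have e2 := abs_G_le y
    have e3 : 0 ≤ ‖x‖ ^ p := by positivity
    have e4 : 0 ≤ Real.exp (3 * |y| ^ (2 / (α / (α - 1)))) := Real.exp_nonneg _
    have e5 : 0 ≤ ‖z‖ ^ 2 := by positivity
    linarith
  · rintro t₁ ht₁ ⟨u, hu⟩
    refine no_solution n d hn T t₁ hT ht₁ b σ K ⟨hK.le, fun t ht => ?_, fun t ht x => ?_,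
      fun t ht x => ?_, hb₁, hσ₁⟩ u hu
    · have h1 := (A1 t ht 0 0).1
      have h2 := frob_nonneg (σ t 0)
      change ‖b t 0‖ ≤ K
      linarith
    · have h1 := (A1 t ht x 0).2
      have h2 := frob_nonneg (σ t x - σ t 0)
      rw [sub_zero] at h1
      change ‖b t x - b t 0‖ ≤ K * ‖x‖
      linarith
    · have h1 := (A1 t ht x x).1
      change frob (σ t x) ≤ K
      linarith [norm_nonneg (b t 0)]

end Pool.Agent.Results.MP_2d773b_an.NoViscositySolution
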